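import Mathlib

/-! An element which is not a virtual retract. -/

set_option autoImplicit false

namespace Pool.Agent.N492.VR

variable {G : Type} [Group G]

/-- a homomorphism from a normal subgroup to the integers, conjugated -/
def cj (N : Subgroup G) [hN : N.Normal] (φ : N →* Multiplicative ℤ) (u : G) (hu : u ∈ N) (x : G) :
    ℤ :=
  (φ ⟨x⁻¹ * u * x, by simpa using hN.conj_mem u hu x⁻¹⟩).toAdd

theorem cj_mul (N : Subgroup G) [hN : N.Normal] (φ : N →* Multiplicative ℤ) (u v : G) (hu : u ∈ N)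
    (hv : v ∈ N) (x : G) :
    cj N φ (u * v) (N.mul_mem hu hv) x = cj N φ u hu x + cj N φ v hv x := by
  unfold cj
  rw [← toAdd_mul, ← map_mul]
  congr 2
  apply Subtype.ext
  show x⁻¹ * (u * v) * x = (x⁻¹ * u * x) * (x⁻¹ * v * x)
  group

theorem cj_left (N : Subgroup G) [hN : N.Normal] (φ : N →* Multiplicative ℤ) (u v : G) (hu : u ∈ N)
    (hv : v ∈ N) (b x : G) (h : b⁻¹ * u * b = v) : cj N φ u hu (b * x) = cj N φ v hv x := by
  unfold cj
  congr 2
  apply Subtype.ext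
  show (b * x)⁻¹ * u * (b * x) = x⁻¹ * v * x
  rw [← h]
  group

theorem cj_coset (N : Subgroup G) [hN : N.Normal] (φ : N →* Multiplicative ℤ) (u : G) (hu : u ∈ N)
    (x y : G) (h : x⁻¹ * y ∈ N) : cj N φ u hu x = cj N φ u hu y := by
  have h1 : φ ⟨y⁻¹ * u * y, by simpa using hN.conj_mem u hu y⁻¹⟩ =
      (φ ⟨x⁻¹ * y, h⟩)⁻¹ * φ ⟨x⁻¹ * u * x, by simpa using hN.conj_mem u hu x⁻¹⟩ *
        φ ⟨x⁻¹ * y, h⟩ := by
    rw [← map_inv, ← map_mul, ← map_mul]
    congr 1
    apply Subtype.ext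
    show y⁻¹ * u * y = (x⁻¹ * y)⁻¹ * (x⁻¹ * u * x) * (x⁻¹ * y)
    group
  unfold cj
  rw [h1, mul_comm, mul_inv_cancel_left]

theorem kills (a t b c : G) (hat : a * t = t * a) (hb : b⁻¹ * t * b = a * t)
    (hc : c⁻¹ * t * c = a ^ 2 * t) (N : Subgroup G) [hN : N.Normal] [N.FiniteIndex]
    (φ : N →* Multiplicative ℤ) (n : ℕ) (ha : a ^ n ∈ N) (ht : t ^ n ∈ N) :
    φ ⟨a ^ n, ha⟩ = 1 := by
  classical
  have hfin : Fintype (G ⧸ N) := Fintype.ofFinite _
  let A : G ⧸ N → ℤ := Quotient.lift (cj N φ (a ^ n) ha) (by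
    intro x y hxy
    exact cj_coset N φ _ ha x y (QuotientGroup.leftRel_apply.1 hxy))
  let T : G ⧸ N → ℤ := Quotient.lift (cj N φ (t ^ n) ht) (by
    intro x y hxy
    exact cj_coset N φ _ ht x y (QuotientGroup.leftRel_apply.1 hxy))
  have hcomm : Commute a t := hat
  have hbn : b⁻¹ * t ^ n * b = a ^ n * t ^ n := by
    have h1 : (b⁻¹ * t * b) ^ n = b⁻¹ * t ^ n * b := by
      have := conj_pow (i := n) (a := b⁻¹) (b := t)
      simpa using this
    rw [← h1, hb, hcomm.mul_pow]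
  have hcn : c⁻¹ * t ^ n * c = a ^ n * (a ^ n * t ^ n) := by
    have h1 : (c⁻¹ * t * c) ^ n = c⁻¹ * t ^ n * c := by
      have := conj_pow (i := n) (a := c⁻¹) (b := t)
      simpa using this
    rw [← h1, hc, (hcomm.pow_left 2).mul_pow, ← mul_assoc, ← pow_add, ← pow_mul]
    congr 2
    ring
  have hTb : ∀ x : G ⧸ N, T (b • x) = A x + T x := by
    intro x
    induction x using QuotientGroup.induction_on with
    | H x =>
      show cj N φ (t ^ n) ht (b * x) = cj N φ (a ^ n) ha x + cj N φ (t ^ n) ht x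
      rw [← cj_mul]
      exact cj_left N φ _ _ _ _ b x hbn
  have hTc : ∀ x : G ⧸ N, T (c • x) = A x + (A x + T x) := by
    intro x
    induction x using QuotientGroup.induction_on with
    | H x =>
      show cj N φ (t ^ n) ht (c * x) = cj N φ (a ^ n) ha x + (cj N φ (a ^ n) ha x +
        cj N φ (t ^ n) ht x)
      rw [← cj_mul, ← cj_mul]
      exact cj_left N φ _ _ _ _ c x hcn
  have e1 : ∑ x : G ⧸ N, (A x + T x) ^ 2 = ∑ x, T x ^ 2 := by
    rw [← Equiv.sum_comp (MulAction.toPerm b) (fun x => T x ^ 2)]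
    apply Finset.sum_congr rfl
    intro x _
    show (A x + T x) ^ 2 = T (b • x) ^ 2
    rw [hTb]
  have e2 : ∑ x : G ⧸ N, (A x + (A x + T x)) ^ 2 = ∑ x, T x ^ 2 := by
    rw [← Equiv.sum_comp (MulAction.toPerm c) (fun x => T x ^ 2)]
    apply Finset.sum_congr rfl
    intro x _
    show (A x + (A x + T x)) ^ 2 = T (c • x) ^ 2
    rw [hTc]
  have e3 : ∑ x : G ⧸ N, A x ^ 2 = 0 := by
    have h1 : ∑ x : G ⧸ N, (A x ^ 2) + ∑ x : G ⧸ N, (2 * (A x * T x)) = 0 := by
      have h2 : ∑ x : G ⧸ N, (A x + T x) ^ 2 - ∑ x, T x ^ 2 = 0 := by rw [e1, sub_self]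
      rw [← h2, ← Finset.sum_sub_distrib, ← Finset.sum_add_distrib]
      apply Finset.sum_congr rfl
      intro x _
      ring
    have h3 : ∑ x : G ⧸ N, (4 * (A x ^ 2)) + ∑ x : G ⧸ N, (4 * (A x * T x)) = 0 := by
      have h2 : ∑ x : G ⧸ N, (A x + (A x + T x)) ^ 2 - ∑ x, T x ^ 2 = 0 := by rw [e2, sub_self]
      rw [← h2, ← Finset.sum_sub_distrib, ← Finset.sum_add_distrib]
      apply Finset.sum_congr rfl
      intro x _
      ring
    rw [← Finset.mul_sum] at h1 h3
    rw [← Finset.mul_sum] at h3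
    linarith
  have e4 : A (QuotientGroup.mk 1) = 0 := by
    have h1 := (Finset.sum_eq_zero_iff_of_nonneg (fun x _ => sq_nonneg (A x))).1 e3
      (QuotientGroup.mk 1) (Finset.mem_univ _)
    exact pow_eq_zero_iff (two_ne_zero) |>.1 h1
  have e5 : cj N φ (a ^ n) ha 1 = 0 := e4
  unfold cj at e5
  have e6 : φ ⟨1⁻¹ * a ^ n * 1, by simpa using ha⟩ = 1 := by
    apply Multiplicative.toAdd.injective
    exact e5
  rw [← e6]
  congr 1
  apply Subtype.ext
  simp

theorem not_vr (a t b c : G) (hat : a * t = t * a) (hb : b⁻¹ * t * b = a * t)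
    (hc : c⁻¹ * t * c = a ^ 2 * t) (hinf : ∀ n : ℤ, a ^ n = 1 → n = 0) (K : Subgroup G)
    (hK : K.FiniteIndex) (haK : Subgroup.zpowers a ≤ K) (r : K →* G)
    (hr : ∀ k : K, r k ∈ Subgroup.zpowers a)
    (hr' : ∀ k : K, (k : G) ∈ Subgroup.zpowers a → r k = k) : False := by
  have hinj : ∀ i j : ℤ, a ^ i = a ^ j → i = j := by
    intro i j hij
    have := hinf (i - j) (by rw [zpow_sub, hij, mul_inv_cancel])
    linarith
  choose e he using fun k => Subgroup.mem_zpowers_iff.1 (hr k)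
  let φ0 : K →* Multiplicative ℤ :=
    { toFun := fun k => Multiplicative.ofAdd (e k)
      map_one' := by
        have : e 1 = 0 := hinj _ _ (by rw [he, map_one, zpow_zero])
        rw [this]; rfl
      map_mul' := fun k l => by
        have : e (k * l) = e k + e l := hinj _ _ (by rw [he, map_mul, zpow_add, he, he])
        rw [this]; rfl }
  have hN : K.normalCore.FiniteIndex := inferInstance
  let n := K.normalCore.index
  have hn : n ≠ 0 := hN.index_ne_zero
  have ha : a ^ n ∈ K.normalCore := Subgroup.pow_index_mem _ _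
  have ht : t ^ n ∈ K.normalCore := Subgroup.pow_index_mem _ _
  have h1 := kills a t b c hat hb hc K.normalCore (φ0.comp (Subgroup.inclusion K.normalCore_le)) n
    ha ht
  have h2 : e ⟨a ^ n, K.normalCore_le ha⟩ = 0 := congrArg Multiplicative.toAdd h1
  have h3 := he ⟨a ^ n, K.normalCore_le ha⟩
  rw [h2, zpow_zero, hr' _ (Subgroup.npow_mem_zpowers a n)] at h3
  have h4 : a ^ (n : ℤ) = 1 := by
    rw [zpow_natCast]
    exact h3.symm
  have h5 := hinf _ h4
  exact hn (by exact_mod_cast h5)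

end Pool.Agent.N492.VR
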