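import Pool.Agent.N492.VR.Stab
import Pool.Agent.N492.VR.NotVR

set_option autoImplicit false

namespace Pool.Agent.N492.VR

theorem vr_contra (K : Subgroup GG) (hK : K.FiniteIndex)
    (haK : Subgroup.zpowers (SemidirectProduct.inl ga : GG) ≤ K) (r : K →* GG)
    (hr : ∀ k : K, r k ∈ Subgroup.zpowers (SemidirectProduct.inl ga : GG))
    (hr' : ∀ k : K, (k : GG) ∈ Subgroup.zpowers (SemidirectProduct.inl ga : GG) → r k = k) :
    False := by
  refine not_vr (SemidirectProduct.inl ga : GG)
    (SemidirectProduct.inr (Multiplicative.ofAdd 1)) (gx 1) (gx 2) ?_ ?_ ?_ ?_ K hK haK r hr hr'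
  · apply SemidirectProduct.ext
    · simp [Ph_apply, ph_ga]
    · simp
  · rw [mul_assoc, inv_mul_eq_iff_eq_mul]
    apply SemidirectProduct.ext
    · simp [gx, Ph_apply, ph_of, ex]
    · simp [gx]
  · rw [mul_assoc, inv_mul_eq_iff_eq_mul, ← map_pow]
    apply SemidirectProduct.ext
    · simp [gx, Ph_apply, ph_of, ex, -map_pow]
    · simp [gx, -map_pow]
  · intro n hn
    rw [← map_zpow] at hn
    exact ga_zpow n (SemidirectProduct.inl_injective (hn.trans (map_one _).symm))

end Pool.Agent.N492.VR
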