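import Mathlib

/-! Cyclic subgroups of free groups are separated by finite quotients (the classical argument of
extending finitely many partial injections of a finite set to permutations). -/

set_option autoImplicit false

namespace Pool.Agent.N492.VR



variable {α : Type}

/-- Any finite part of an action of a free group can be completed to a finite action. -/
theorem complete {Y : Type} [MulAction (FreeGroup α) Y] (S : Finset Y) :
    ∃ σ : α → Equiv.Perm S, ∀ (x : α) (s : S) (h : FreeGroup.of x • (s : Y) ∈ S),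
      σ x s = ⟨FreeGroup.of x • (s : Y), h⟩ := by
  classical
  have key : ∀ x : α, ∃ τ : Equiv.Perm S, ∀ (s : S) (h : FreeGroup.of x • (s : Y) ∈ S),
      τ s = ⟨FreeGroup.of x • (s : Y), h⟩ := by
    intro x
    let p : S → Prop := fun s => FreeGroup.of x • (s : Y) ∈ S
    let q : S → Prop := fun s => (FreeGroup.of x)⁻¹ • (s : Y) ∈ S
    let e : {s : S // p s} ≃ {s : S // q s} :=
      { toFun := fun s => ⟨⟨FreeGroup.of x • ((s : S) : Y), s.2⟩, by
          show (FreeGroup.of x)⁻¹ • (FreeGroup.of x • ((s : S) : Y)) ∈ S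
          rw [inv_smul_smul]; exact s.1.2⟩
        invFun := fun s => ⟨⟨(FreeGroup.of x)⁻¹ • ((s : S) : Y), s.2⟩, by
          show (FreeGroup.of x) • ((FreeGroup.of x)⁻¹ • ((s : S) : Y)) ∈ S
          rw [smul_inv_smul]; exact s.1.2⟩
        left_inv := fun s => by
          apply Subtype.ext
          apply Subtype.ext
          exact inv_smul_smul _ _
        right_inv := fun s => by
          apply Subtype.ext
          apply Subtype.ext
          exact smul_inv_smul _ _ }
    refine ⟨e.extendSubtype, ?_⟩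
    intro s h
    have := e.extendSubtype_apply_of_mem s h
    rw [this]
    rfl
  choose τ hτ using key
  exact ⟨τ, hτ⟩

/-- The suffixes of a word acting on a point. -/
theorem word_act {Y : Type} [MulAction (FreeGroup α) Y] (S : Finset Y)
    (σ : α → Equiv.Perm S) (hσ : ∀ (x : α) (s : S) (h : FreeGroup.of x • (s : Y) ∈ S),
      σ x s = ⟨FreeGroup.of x • (s : Y), h⟩) (y : S) :
    ∀ L : List (α × Bool), (∀ L' : List (α × Bool), L' <:+ L → FreeGroup.mk L' • (y : Y) ∈ S) →
      ((FreeGroup.lift σ (FreeGroup.mk L) y : S) : Y) = FreeGroup.mk L • (y : Y) := by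
  intro L
  induction L with
  | nil =>
    intro _
    have h1 : (FreeGroup.mk [] : FreeGroup α) = 1 := rfl
    rw [h1, map_one, one_smul, Equiv.Perm.one_apply]
  | cons l L ih =>
    intro hL
    have h0 := ih (fun L' h => hL L' (h.trans (List.suffix_cons l L)))
    have h1 : (FreeGroup.mk (l :: L) : FreeGroup α) = FreeGroup.mk [l] * FreeGroup.mk L := rfl
    have hm : FreeGroup.mk L • (y : Y) ∈ S := hL L (List.suffix_cons l L)
    have hm' : FreeGroup.mk [l] • (FreeGroup.mk L • (y : Y)) ∈ S := by
      rw [← mul_smul, ← h1]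
      exact hL _ (List.suffix_refl _)
    rw [h1, map_mul, Equiv.Perm.mul_apply, mul_smul]
    have h2 : FreeGroup.lift σ (FreeGroup.mk L) y = ⟨FreeGroup.mk L • (y : Y), hm⟩ :=
      Subtype.ext h0
    rw [h2]
    obtain ⟨x, ε⟩ := l
    cases ε with
    | true =>
      have h3 : (FreeGroup.mk [(x, true)] : FreeGroup α) = FreeGroup.of x := rfl
      rw [h3] at hm' ⊢
      rw [FreeGroup.lift_apply_of, hσ x _ hm']
    | false =>
      have h3 : (FreeGroup.mk [(x, false)] : FreeGroup α) = (FreeGroup.of x)⁻¹ := rfl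
      rw [h3] at hm' ⊢
      rw [map_inv, FreeGroup.lift_apply_of]
      have h4 : σ x ⟨(FreeGroup.of x)⁻¹ • (FreeGroup.mk L • (y : Y)), hm'⟩ =
          ⟨FreeGroup.mk L • (y : Y), hm⟩ := by
        rw [hσ x _ (by rw [smul_inv_smul]; exact hm)]
        apply Subtype.ext
        exact smul_inv_smul _ _
      rw [← h4]
      exact congrArg Subtype.val ((σ x).symm_apply_apply _)

/-- Cyclic subgroups of a free group are closed in the profinite topology. -/
theorem cyclic_closed (g h : FreeGroup α) (hh : h ∉ Subgroup.zpowers g) :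
    ∃ (Q : Type) (_ : Group Q) (_ : Finite Q) (f : FreeGroup α →* Q),
      ∃ K : Subgroup Q, f g ∈ K ∧ f h ∉ K := by
  classical
  let Y := FreeGroup α ⧸ Subgroup.zpowers g
  let y0 : Y := QuotientGroup.mk 1
  let suff : FreeGroup α → Finset Y := fun w =>
    (w.toWord.tails.toFinset).image (fun L => FreeGroup.mk L • y0)
  let S : Finset Y := suff g ∪ suff h ∪ {y0}
  have hS : ∀ w : FreeGroup α, suff w ⊆ S → ∀ L' : List (α × Bool), L' <:+ w.toWord →
      FreeGroup.mk L' • y0 ∈ S := by
    intro w hw L' hL'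
    apply hw
    simp only [suff, Finset.mem_image, List.mem_toFinset, List.mem_tails]
    exact ⟨L', hL', rfl⟩
  obtain ⟨σ, hσ⟩ := complete (α := α) S
  have hy0 : y0 ∈ S := by simp [S]
  have hg := word_act S σ hσ ⟨y0, hy0⟩ g.toWord
    (hS g (Finset.subset_union_left.trans Finset.subset_union_left))
  have hh' := word_act S σ hσ ⟨y0, hy0⟩ h.toWord
    (hS h (Finset.subset_union_right.trans Finset.subset_union_left))
  rw [FreeGroup.mk_toWord] at hg hh'
  refine ⟨Equiv.Perm S, inferInstance, inferInstance, FreeGroup.lift σ,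
    MulAction.stabilizer (Equiv.Perm S) (⟨y0, hy0⟩ : S), ?_, ?_⟩
  · rw [MulAction.mem_stabilizer_iff, Equiv.Perm.smul_def]
    apply Subtype.ext
    rw [hg]
    show QuotientGroup.mk (g * 1) = _
    rw [mul_one]
    exact (QuotientGroup.eq.2 (by simp)).symm
  · rw [MulAction.mem_stabilizer_iff, Equiv.Perm.smul_def]
    intro h1
    apply hh
    have h2 : ((FreeGroup.lift σ h ⟨y0, hy0⟩ : S) : Y) = y0 := by rw [h1]
    rw [hh'] at h2
    have h3 : (QuotientGroup.mk (h * 1) : Y) = QuotientGroup.mk 1 := h2
    rw [mul_one, QuotientGroup.eq] at h3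
    simpa using h3

end Pool.Agent.N492.VR
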