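import Pool.Agent.N492.VR.Free

/-! Gersten's free-by-cyclic group. -/

set_option autoImplicit false

namespace Pool.Agent.N492.VR

abbrev Fr := FreeGroup (Fin 3)

def ga : Fr := FreeGroup.of 0

def ex : Fin 3 → ℤ := ![0, 1, 2]

def ph (k : ℤ) : Fr →* Fr := FreeGroup.lift (fun i => FreeGroup.of i * ga ^ (k * ex i))

theorem ph_of (k : ℤ) (i : Fin 3) : ph k (FreeGroup.of i) = FreeGroup.of i * ga ^ (k * ex i) := by
  simp [ph]

theorem ph_ga (k : ℤ) : ph k ga = ga := by
  unfold ga
  rw [ph_of]
  simp [ex]

theorem ph_comp (k l : ℤ) (x : Fr) : ph k (ph l x) = ph (k + l) x := by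
  have h : (ph k).comp (ph l) = ph (k + l) := by
    apply FreeGroup.ext_hom
    intro i
    simp only [MonoidHom.comp_apply]
    rw [ph_of, map_mul, map_zpow, ph_ga, ph_of, ph_of, mul_assoc, ← zpow_add]
    congr 2
    ring
  exact DFunLike.congr_fun h x

theorem ph_zero (x : Fr) : ph 0 x = x := by
  have h : ph 0 = MonoidHom.id Fr := by
    apply FreeGroup.ext_hom
    intro i
    rw [ph_of]
    simp
  exact DFunLike.congr_fun h x

def phE (k : ℤ) : MulAut Fr where
  toFun := ph k
  invFun := ph (-k)
  left_inv := fun x => by rw [ph_comp, neg_add_cancel, ph_zero]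
  right_inv := fun x => by rw [ph_comp, add_neg_cancel, ph_zero]
  map_mul' := map_mul _

def Ph : Multiplicative ℤ →* MulAut Fr where
  toFun := fun k => phE k.toAdd
  map_one' := by
    ext1 x
    exact ph_zero x
  map_mul' := fun k l => by
    ext1 x
    exact (ph_comp _ _ x).symm

theorem Ph_apply (k : Multiplicative ℤ) (x : Fr) : Ph k x = ph k.toAdd x := rfl

abbrev GG := SemidirectProduct Fr (Multiplicative ℤ) Ph

theorem fi_comap {A B : Type} [Group A] [Group B] (ρ : A →* B) (K : Subgroup B)
    (hK : K.FiniteIndex) : (K.comap ρ).FiniteIndex := by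
  have h1 : K.normalCore.FiniteIndex := inferInstance
  have h2 : (K.normalCore.comap ρ).FiniteIndex := by
    constructor
    rw [Subgroup.index_comap]
    intro h
    have h3 := Subgroup.relIndex_dvd_index_of_normal K.normalCore ρ.range
    rw [h, zero_dvd_iff] at h3
    exact h1.index_ne_zero h3
  exact Subgroup.finiteIndex_of_le (Subgroup.comap_mono K.normalCore_le)

theorem fi_zpow {P : Type} [Group P] [Finite P] (p : P × Multiplicative ℤ) (hp : p.2 ≠ 1) :
    (Subgroup.zpowers p).FiniteIndex := by
  have hc : Nat.card P ≠ 0 := Nat.card_pos.ne'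
  have hp' : p.2.toAdd ≠ 0 := fun h => hp (by simpa using h)
  let M : ℕ := (p.2.toAdd * (Nat.card P : ℤ)).natAbs
  have hM : M ≠ 0 := by
    simp only [M, Int.natAbs_ne_zero]
    exact mul_ne_zero hp' (by exact_mod_cast hc)
  have : NeZero M := ⟨hM⟩
  have hfin : Finite (P × Multiplicative (ZMod M)) := inferInstanceAs (Finite (P × ZMod M))
  let θ : P × Multiplicative ℤ →* P × Multiplicative (ZMod M) :=
    MonoidHom.prodMap (MonoidHom.id P) (AddMonoidHom.toMultiplicative (Int.castAddHom (ZMod M)))
  have h1 : θ.ker.FiniteIndex := inferInstance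
  apply Subgroup.finiteIndex_of_le (H := θ.ker)
  rintro ⟨x, y⟩ hxy
  have hx : x = 1 := congrArg Prod.fst (MonoidHom.mem_ker.1 hxy)
  have hy : ((y.toAdd : ℤ) : ZMod M) = 0 := congrArg Prod.snd (MonoidHom.mem_ker.1 hxy)
  rw [ZMod.intCast_zmod_eq_zero_iff_dvd, Int.natAbs_dvd] at hy
  obtain ⟨q, hq⟩ := hy
  refine ⟨(Nat.card P : ℤ) * q, ?_⟩
  show p ^ ((Nat.card P : ℤ) * q) = (x, y)
  rw [zpow_mul, zpow_natCast]
  apply Prod.ext
  · show (p.1 ^ Nat.card P) ^ q = x
    rw [pow_card_eq_one', one_zpow, hx]
  · show (p.2 ^ Nat.card P) ^ q = y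
    apply Multiplicative.toAdd.injective
    rw [toAdd_zpow, toAdd_pow, hq]
    simp only [smul_eq_mul, nsmul_eq_mul]
    ring

/-- cyclic subgroup separability of free-by-cyclic groups -/
theorem sep (g h : GG) (hh : h ∉ Subgroup.zpowers g) :
    ∃ K : Subgroup GG, K.FiniteIndex ∧ Subgroup.zpowers g ≤ K ∧ h ∉ K := by
  classical
  -- finite quotients of `GG` seeing a given finite quotient of the free group
  have key : ∀ (Q : Type) [Group Q] [Finite Q] (f : Fr →* Q), ∃ ρ : GG →* Equiv.Perm ((Fr →* Q) × Q),
      ∀ x : Fr, ρ (SemidirectProduct.inl x) = 1 → f x = 1 := by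
    intro Q _ _ f
    let r1 : Fr →* Equiv.Perm ((Fr →* Q) × Q) :=
      { toFun := fun x =>
          { toFun := fun z => (z.1, z.1 x * z.2)
            invFun := fun z => (z.1, (z.1 x)⁻¹ * z.2)
            left_inv := fun z => by simp
            right_inv := fun z => by simp }
        map_one' := by
          ext1 z
          simp
        map_mul' := fun x y => by
          ext1 z
          simp [mul_assoc] }
    let r2 : Multiplicative ℤ →* Equiv.Perm ((Fr →* Q) × Q) :=
      { toFun := fun k =>
          { toFun := fun z => (z.1.comp (ph (-k.toAdd)), z.2)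
            invFun := fun z => (z.1.comp (ph k.toAdd), z.2)
            left_inv := fun z => by
              apply Prod.ext
              · ext1 x
                simp [ph_comp, ph_zero]
              · rfl
            right_inv := fun z => by
              apply Prod.ext
              · ext1 x
                simp [ph_comp, ph_zero]
              · rfl }
        map_one' := by
          ext1 z
          apply Prod.ext
          · apply MonoidHom.ext
            intro x
            simp [ph_zero]
          · rfl
        map_mul' := fun k l => by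
          ext1 z
          apply Prod.ext
          · apply MonoidHom.ext
            intro x
            simp [ph_comp, add_comm]
          · rfl }
    refine ⟨SemidirectProduct.lift r1 r2 ?_, ?_⟩
    · intro k
      apply MonoidHom.ext
      intro x
      have h1 : r1 (Ph k x) * r2 k = r2 k * r1 x := by
        ext1 z
        apply Prod.ext
        · rfl
        · show (z.1.comp (ph (-k.toAdd))) (ph k.toAdd x) * z.2 = z.1 x * z.2
          rw [MonoidHom.comp_apply, ph_comp, neg_add_cancel, ph_zero]
      show r1 (Ph k x) = r2 k * r1 x * (r2 k)⁻¹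
      rw [← h1, mul_inv_cancel_right]
    · intro x hx
      rw [SemidirectProduct.lift_inl] at hx
      have h1 : r1 x (f, 1) = (f, 1) := by rw [hx]; rfl
      have h2 : (f x * 1 : Q) = 1 := congrArg Prod.snd h1
      simpa using h2
  have fin : ∀ (Q : Type) [Group Q] [Finite Q], Finite (Fr →* Q) := by
    intro Q _ _
    exact Finite.of_injective (fun f : Fr →* Q => fun i => f (FreeGroup.of i))
      (fun f f' h => FreeGroup.ext_hom _ _ (fun i => congrFun h i))
  have hfg : ∀ x : GG, x.right = 1 → x = SemidirectProduct.inl x.left := by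
    intro x hx
    apply SemidirectProduct.ext
    · rfl
    · exact hx
  by_cases hg : g.right = 1
  · by_cases hh1 : h.right = 1
    · -- both in the free group
      have h2 : h.left ∉ Subgroup.zpowers g.left := by
        rintro ⟨i, hi⟩
        apply hh
        refine ⟨i, ?_⟩
        have hi' : g.left ^ i = h.left := hi
        show g ^ i = h
        rw [hfg g hg, hfg h hh1, ← hi', map_zpow]
      obtain ⟨Q, _, _, f, K0, hK1, hK2⟩ := cyclic_closed g.left h.left h2
      obtain ⟨ρ, hρ⟩ := key Q f
      have := fin Q
      refine ⟨(Subgroup.zpowers (ρ g)).comap ρ, ?_, ?_, ?_⟩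
      · exact fi_comap ρ _ inferInstance
      · rw [Subgroup.zpowers_le]
        exact Subgroup.mem_zpowers _
      · rintro ⟨i, hi⟩
        have hi' : (ρ g) ^ i = ρ h := hi
        have h3 : ρ (SemidirectProduct.inl (h.left * (g.left ^ i)⁻¹)) = 1 := by
          rw [map_mul, map_inv, map_zpow, ← hfg g hg, ← hfg h hh1, map_mul, map_inv, map_zpow,
            hi', mul_inv_cancel]
        have h4 := hρ _ h3
        rw [map_mul, map_inv, map_zpow, mul_inv_eq_one] at h4
        apply hK2
        rw [h4]
        exact K0.zpow_mem hK1 i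
    · -- `g` in the free group, `h` not
      let χ : GG →* Multiplicative (ZMod (h.right.toAdd.natAbs + 1)) :=
        (AddMonoidHom.toMultiplicative (Int.castAddHom (ZMod (h.right.toAdd.natAbs + 1)))).comp
          SemidirectProduct.rightHom
      have hfin : Finite (Multiplicative (ZMod (h.right.toAdd.natAbs + 1))) :=
        inferInstanceAs (Finite (ZMod _))
      refine ⟨χ.ker, inferInstance, ?_, ?_⟩
      · rw [Subgroup.zpowers_le, MonoidHom.mem_ker]
        show (AddMonoidHom.toMultiplicative (Int.castAddHom (ZMod (h.right.toAdd.natAbs + 1))))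
          g.right = 1
        rw [hg, map_one]
      · intro h1
        have h2 : ((h.right.toAdd : ℤ) : ZMod (h.right.toAdd.natAbs + 1)) = 0 :=
          MonoidHom.mem_ker.1 h1
        rw [ZMod.intCast_zmod_eq_zero_iff_dvd] at h2
        have h3 : h.right.toAdd ≠ 0 := fun h => hh1 (by simpa using h)
        have h4 := Int.le_of_dvd (abs_pos.2 h3) ((dvd_abs _ _).2 h2)
        push_cast at h4
        omega
  · -- `g` not in the free group
    have hg' : g.right.toAdd ≠ 0 := fun h => hg (by simpa using h)
    have main : ∀ (P : Type) [Group P] [Finite P] (ρ : GG →* P),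
        (∀ i : ℤ, g.right ^ i = h.right → ρ g ^ i = ρ h → False) →
        ∃ K : Subgroup GG, K.FiniteIndex ∧ Subgroup.zpowers g ≤ K ∧ h ∉ K := by
      intro P _ _ ρ hρ
      let θ : GG →* P × Multiplicative ℤ := ρ.prod SemidirectProduct.rightHom
      refine ⟨(Subgroup.zpowers (θ g)).comap θ, fi_comap θ _ (fi_zpow _ hg), ?_, ?_⟩
      · rw [Subgroup.zpowers_le]
        exact Subgroup.mem_zpowers _
      · rintro ⟨i, hi⟩
        have hi' : θ g ^ i = θ h := hi
        exact hρ i (congrArg Prod.snd hi') (congrArg Prod.fst hi')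
    by_cases hi0 : ∃ i0 : ℤ, g.right ^ i0 = h.right
    · obtain ⟨i0, hi0⟩ := hi0
      let z : GG := h * (g ^ i0)⁻¹
      have hz1 : z.right = 1 := by
        show h.right * ((g ^ i0)⁻¹).right = 1
        have h5 : (SemidirectProduct.rightHom (g ^ i0) : Multiplicative ℤ) = g.right ^ i0 := by
          rw [map_zpow]; rfl
        rw [SemidirectProduct.inv_right]
        have h6 : (g ^ i0).right = g.right ^ i0 := h5
        rw [h6, hi0, mul_inv_cancel]
      have hz2 : z.left ∉ Subgroup.zpowers (1 : Fr) := by
        intro h5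
        have h6 : z.left = 1 := by simpa using h5
        have h7 : z = 1 := by
          rw [hfg z hz1, h6, map_one]
        have h8 : h = g ^ i0 := mul_inv_eq_one.1 h7
        exact hh ⟨i0, h8.symm⟩
      obtain ⟨Q, _, _, f, K0, hK1, hK2⟩ := cyclic_closed 1 z.left hz2
      obtain ⟨ρ, hρ⟩ := key Q f
      have := fin Q
      refine main _ ρ ?_
      intro i hi hi'
      have h9 : i = i0 := by
        rw [← hi0] at hi
        have h10 := congrArg Multiplicative.toAdd hi
        rw [toAdd_zpow, toAdd_zpow, smul_eq_mul, smul_eq_mul] at h10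
        exact mul_right_cancel₀ hg' h10
      subst h9
      have h11 : ρ z = 1 := by
        show ρ (h * (g ^ i)⁻¹) = 1
        rw [map_mul, map_inv, map_zpow, hi', mul_inv_cancel]
      rw [hfg z hz1] at h11
      have h12 := hρ _ h11
      apply hK2
      rw [h12]
      exact K0.one_mem
    · refine main Unit (1 : GG →* Unit) ?_
      intro i hi _
      exact hi0 ⟨i, hi⟩

end Pool.Agent.N492.VR
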