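import Pool.Agent.N492.VR.Tree

/-! Orbits and stabilizers. -/

set_option autoImplicit false

namespace Pool.Agent.N492.VR

open Matrix.SpecialLinearGroup

/-- the generator `a` has infinite order -/
theorem ga_zpow (n : ℤ) (h : ga ^ n = 1) : n = 0 := by
  let f : Fr →* Multiplicative ℤ := FreeGroup.lift (fun _ => Multiplicative.ofAdd 1)
  have h1 : f (ga ^ n) = 1 := by rw [h, map_one]
  rw [map_zpow] at h1
  have h2 : f ga = Multiplicative.ofAdd 1 := by simp [f, ga]
  rw [h2] at h1
  have h3 := congrArg Multiplicative.toAdd h1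
  rw [toAdd_zpow] at h3
  simpa using h3

/-- `a` and its conjugates by the other generators have disjoint powers -/
theorem ga_conj (i : Fin 3) (hi : i ≠ 0) (m n : ℤ)
    (h : ga ^ m * FreeGroup.of i = FreeGroup.of i * ga ^ n) : m = 0 := by
  let f : Fr →* Matrix.SpecialLinearGroup (Fin 2) ℤ :=
    FreeGroup.lift (fun j => if j = 0 then ModularGroup.T else ModularGroup.S)
  have h1 : f ga = ModularGroup.T := by simp [f, ga]
  have h2 : f (FreeGroup.of i) = ModularGroup.S := by simp [f, hi]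
  have h3 := congrArg f h
  rw [map_mul, map_mul, map_zpow, map_zpow, h1, h2] at h3
  have h4 := congrArg Subtype.val h3
  have h5 : (ModularGroup.T ^ m).1 * ModularGroup.S.1 = ModularGroup.S.1 * (ModularGroup.T ^ n).1 :=
    h4
  rw [ModularGroup.coe_T_zpow, ModularGroup.coe_T_zpow] at h5
  have h6 := congrFun (congrFun h5 0) 0
  simpa [ModularGroup.S] using h6

/-- the height -/
noncomputable def bt : GG →* Multiplicative ℤ :=
  SemidirectProduct.lift (FreeGroup.lift (fun i => if i = 0 then 1 else Multiplicative.ofAdd 1)) 1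
    (by
      intro k
      apply FreeGroup.ext_hom
      intro i
      show FreeGroup.lift _ (ph _ (FreeGroup.of i)) = _
      rw [ph_of, map_mul, map_zpow]
      have : FreeGroup.lift (fun i : Fin 3 => if i = 0 then (1 : Multiplicative ℤ) else
          Multiplicative.ofAdd 1) ga = 1 := by simp [ga]
      rw [this, one_zpow, mul_one]
      simp)

theorem bt_HH (g : GG) (h : g ∈ HH) : bt g = 1 := by
  obtain ⟨i, hi⟩ := (mem_HH g).1 h
  have h1 := SemidirectProduct.inl_left_mul_inr_right g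
  rw [← h1, ← hi, map_mul, map_zpow, map_zpow]
  have h2 : bt (SemidirectProduct.inl ga) = 1 := by
    simp [bt, ga]
  have h3 : bt (SemidirectProduct.inr g.right) = 1 := by
    simp [bt]
  rw [h2, h3, one_zpow, one_mul]

theorem bt_gx (i : Fin 3) (hi : i ≠ 0) : bt (gx i) = Multiplicative.ofAdd 1 := by
  simp [bt, gx, hi]

noncomputable def ht : VV → ℤ := Quotient.lift (fun g => (bt g).toAdd) (by
  intro g g' h
  have h1 : g⁻¹ * g' ∈ HH := QuotientGroup.leftRel_apply.1 h
  have h2 := bt_HH _ h1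
  rw [map_mul, map_inv, inv_mul_eq_one] at h2
  rw [h2])

theorem ht_mk (g : GG) : ht (mk g) = (bt g).toAdd := rfl

theorem ht_smul (g : GG) (v : VV) : ht (g • v) = (bt g).toAdd + ht v := by
  obtain ⟨g', rfl⟩ := mk_surj v
  rw [smul_mk, ht_mk, ht_mk, map_mul, toAdd_mul]

theorem ht_adj (u v : VV) (h : TT.Adj u v) : ht u ≠ ht v := by
  obtain ⟨g, i, hi, h⟩ := h
  have h1 : ht (mk (g * gx i)) = ht (mk g) + 1 := by
    rw [ht_mk, ht_mk, map_mul, bt_gx i hi, toAdd_mul]
    rfl
  rcases h with ⟨rfl, rfl⟩ | ⟨rfl, rfl⟩ <;> omega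

theorem no_inv (g : GG) (u v : VV) (h : TT.Adj u v) : ¬ (g • u = v ∧ g • v = u) := by
  rintro ⟨h1, h2⟩
  have h3 := ht_adj u v h
  have h4 := ht_smul g u
  have h5 := ht_smul g v
  rw [h1] at h4
  rw [h2] at h5
  omega

theorem orb_v : ∃ S : Finset VV, ∀ v : VV, ∃ g : GG, g • v ∈ S := by
  classical
  refine ⟨{mk 1}, ?_⟩
  intro v
  obtain ⟨g', rfl⟩ := mk_surj v
  refine ⟨g'⁻¹, ?_⟩
  rw [smul_mk, inv_mul_cancel]
  simp

theorem orb_e : ∃ E : Finset (VV × VV), ∀ u v : VV, TT.Adj u v → ∃ g : GG, (g • u, g • v) ∈ E := by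
  classical
  refine ⟨Finset.univ.image (fun i : Fin 3 => (mk 1, mk (gx i))) ∪
    Finset.univ.image (fun i : Fin 3 => (mk (gx i), mk 1)), ?_⟩
  rintro u v ⟨g, i, hi, h⟩
  refine ⟨g⁻¹, ?_⟩
  rcases h with ⟨rfl, rfl⟩ | ⟨rfl, rfl⟩
  · rw [smul_mk, smul_mk, inv_mul_cancel, inv_mul_cancel_left, Finset.mem_union]
    left
    exact Finset.mem_image_of_mem _ (Finset.mem_univ i)
  · rw [smul_mk, smul_mk, inv_mul_cancel, inv_mul_cancel_left, Finset.mem_union]
    right
    exact Finset.mem_image_of_mem (fun i : Fin 3 => (mk (gx i), mk 1)) (Finset.mem_univ i)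

/-- the vertex group is free abelian of rank two -/
def io : Multiplicative (Fin 2 → ℤ) →* GG where
  toFun := fun v => ⟨ga ^ (v.toAdd 0), Multiplicative.ofAdd (v.toAdd 1)⟩
  map_one' := by
    apply SemidirectProduct.ext
    · show ga ^ (0 : ℤ) = 1
      exact zpow_zero _
    · rfl
  map_mul' := fun v w => by
    apply SemidirectProduct.ext
    · show ga ^ (v.toAdd 0 + w.toAdd 0) = ga ^ (v.toAdd 0) * Ph _ (ga ^ (w.toAdd 0))
      rw [Ph_apply, map_zpow, ph_ga, zpow_add]
    · rfl

theorem io_inj : Function.Injective io := by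
  intro v w h
  have h1 : ga ^ (v.toAdd 0) = ga ^ (w.toAdd 0) := congrArg SemidirectProduct.left h
  have h2 : v.toAdd 1 = w.toAdd 1 := congrArg (fun z : GG => z.right.toAdd) h
  have h3 : v.toAdd 0 = w.toAdd 0 := by
    have := ga_zpow (v.toAdd 0 - w.toAdd 0) (by rw [zpow_sub, h1, mul_inv_cancel])
    omega
  apply Multiplicative.toAdd.injective
  funext i
  fin_cases i
  · exact h3
  · exact h2

theorem io_range : io.range = HH := by
  ext g
  rw [mem_HH]
  constructor
  · rintro ⟨v, rfl⟩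
    exact ⟨v.toAdd 0, rfl⟩
  · rintro ⟨i, hi⟩
    refine ⟨Multiplicative.ofAdd ![i, g.right.toAdd], ?_⟩
    apply SemidirectProduct.ext
    · exact hi
    · rfl

theorem stab (v : VV) :
    ∃ n : ℕ, Nonempty (↥(MulAction.stabilizer GG v) ≃* Multiplicative (Fin n → ℤ)) := by
  obtain ⟨g, rfl⟩ := mk_surj v
  refine ⟨2, ⟨?_⟩⟩
  have h1 : mk g = g • mk 1 := by rw [smul_mk, mul_one]
  have e1 := (MulAction.stabilizerEquivStabilizer h1).symm
  have h2 : MulAction.stabilizer GG (mk 1) = io.range := by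
    rw [io_range]
    exact MulAction.stabilizer_quotient HH
  have e2 := MulEquiv.subgroupCongr h2
  exact (e1.trans e2).trans (MonoidHom.ofInjective io_inj).symm

theorem stab_e (u v : VV) (h : TT.Adj u v) :
    IsCyclic ↥(MulAction.stabilizer GG u ⊓ MulAction.stabilizer GG v) := by
  have key : ∀ (g : GG) (i : Fin 3), i ≠ 0 → ∀ x : GG, x • mk g = mk g →
      x • mk (g * gx i) = mk (g * gx i) → x.right = 1 → x = 1 := by
    intro g i hi x h1 h2 hx
    rw [smul_mk, eq_comm, mk_eq, mem_HH] at h1 h2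
    obtain ⟨m, hm⟩ := h1
    obtain ⟨n, hn⟩ := h2
    have hy : (g⁻¹ * (x * g)).right = 1 := by
      show g.right⁻¹ * (x.right * g.right) = 1
      rw [hx, one_mul, inv_mul_cancel]
    have hy' : g⁻¹ * (x * g) = SemidirectProduct.inl (ga ^ m) := by
      apply SemidirectProduct.ext
      · exact hm.symm
      · exact hy
    have h3 : (g * gx i)⁻¹ * (x * (g * gx i)) = SemidirectProduct.inl
        ((FreeGroup.of i)⁻¹ * (ga ^ m) * FreeGroup.of i) := by
      have : (g * gx i)⁻¹ * (x * (g * gx i)) = (gx i)⁻¹ * (g⁻¹ * (x * g)) * gx i := by group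
      rw [this, hy', map_mul, map_mul, map_inv]
      rfl
    rw [h3, SemidirectProduct.left_inl] at hn
    have h4 : ga ^ m * FreeGroup.of i = FreeGroup.of i * ga ^ n := by
      rw [hn]; group
    have h5 := ga_conj i hi m n h4
    rw [h5, zpow_zero, map_one] at hy'
    have h6 : x = g * (g⁻¹ * (x * g)) * g⁻¹ := by group
    rw [h6, hy']
    group
  have key2 : ∀ x : GG, x ∈ MulAction.stabilizer GG u ⊓ MulAction.stabilizer GG v →
      x.right = 1 → x = 1 := by
    intro x hx
    obtain ⟨hx1, hx2⟩ := Subgroup.mem_inf.1 hx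
    rw [MulAction.mem_stabilizer_iff] at hx1 hx2
    obtain ⟨g, i, hi, h⟩ := h
    rcases h with ⟨rfl, rfl⟩ | ⟨rfl, rfl⟩
    · exact key g i hi x hx1 hx2
    · exact key g i hi x hx2 hx1
  refine isCyclic_of_injective ((SemidirectProduct.rightHom : GG →* Multiplicative ℤ).comp
    (MulAction.stabilizer GG u ⊓ MulAction.stabilizer GG v).subtype) ?_
  rw [injective_iff_map_eq_one]
  intro x hx
  apply Subtype.ext
  exact key2 x.1 x.2 hx

end Pool.Agent.N492.VR
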