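import Pool.Agent.N492.VR.Grp

/-! The Bass-Serre tree of Gersten's group over the free abelian group of rank two. -/

set_option autoImplicit false

namespace Pool.Agent.N492.VR

/-- the reduced word starts with the generator `i` -/
def St (i : Fin 3) (w : Fr) : Prop := (w⁻¹).toWord.getLast? = some (i, false)

theorem St_mul_of (i j : Fin 3) (w : Fr) :
    St i (w * FreeGroup.of j) ↔ St i w ∨ (w = 1 ∧ j = i) := by
  unfold St
  have h1 : (w * FreeGroup.of j)⁻¹ = FreeGroup.mk ((j, false) :: (w⁻¹).toWord) := by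
    rw [mul_inv_rev]
    conv_lhs => rw [← FreeGroup.mk_toWord (x := w⁻¹)]
    rfl
  have h2 : w = 1 ↔ (w⁻¹).toWord = [] := by
    rw [FreeGroup.toWord_eq_nil_iff, inv_eq_one]
  rw [h1, FreeGroup.toWord_mk, FreeGroup.reduce.cons, FreeGroup.reduce_toWord, h2]
  cases (w⁻¹).toWord with
  | nil => simp
  | cons hd tl =>
    by_cases hc : j = hd.1 ∧ false = !hd.2
    · simp only [hc]
      cases tl with
      | nil =>
        obtain ⟨k, ε⟩ := hd
        simp at hc
        simp [hc.2]
      | cons hd' tl' => simp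
    · have : (if (j, false).1 = hd.1 ∧ (j, false).2 = !hd.2 then tl else (j, false) :: hd :: tl) =
          (j, false) :: hd :: tl := if_neg hc
      simp only [this]
      simp

theorem St_one (i : Fin 3) : ¬ St i 1 := by simp [St]

theorem St_of (i : Fin 3) : St i (FreeGroup.of i) := by
  have := (St_mul_of i i 1).2 (Or.inr ⟨rfl, rfl⟩)
  rwa [one_mul] at this

theorem St_mul_ga (i : Fin 3) (hi : i ≠ 0) (w : Fr) : St i (w * ga) ↔ St i w := by
  unfold ga
  rw [St_mul_of]
  constructor
  · rintro (h | ⟨_, h⟩)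
    · exact h
    · exact absurd h.symm hi
  · exact Or.inl

theorem St_mul_zpow (i : Fin 3) (hi : i ≠ 0) (w : Fr) (k : ℤ) : St i (w * ga ^ k) ↔ St i w := by
  induction k with
  | zero => simp
  | succ k ih => rw [zpow_add_one, ← mul_assoc, St_mul_ga i hi, ih]
  | pred k ih => rw [← ih, zpow_sub_one, ← mul_assoc, ← St_mul_ga i hi, inv_mul_cancel_right]

/-- the vertex group -/
def HH : Subgroup GG where
  carrier := {g | g.left ∈ Subgroup.zpowers ga}
  one_mem' := (Subgroup.zpowers ga).one_mem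
  mul_mem' := by
    rintro g h ⟨i, hi⟩ ⟨j, hj⟩
    have hi' : ga ^ i = g.left := hi
    have hj' : ga ^ j = h.left := hj
    refine ⟨i + j, ?_⟩
    show ga ^ (i + j) = g.left * Ph g.right h.left
    rw [← hi', ← hj', Ph_apply, map_zpow, ph_ga, zpow_add]
  inv_mem' := by
    rintro g ⟨i, hi⟩
    have hi' : ga ^ i = g.left := hi
    refine ⟨-i, ?_⟩
    show ga ^ (-i) = Ph g.right⁻¹ g.left⁻¹
    rw [← hi', Ph_apply, map_inv, map_zpow, ph_ga, zpow_neg]

theorem mem_HH (g : GG) : g ∈ HH ↔ ∃ i : ℤ, ga ^ i = g.left := by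
  show g.left ∈ Subgroup.zpowers ga ↔ _
  exact Subgroup.mem_zpowers_iff

abbrev VV := GG ⧸ HH

def gx (i : Fin 3) : GG := SemidirectProduct.inl (FreeGroup.of i)

def mk (g : GG) : VV := QuotientGroup.mk g

theorem mk_eq (g h : GG) : mk g = mk h ↔ g⁻¹ * h ∈ HH := QuotientGroup.eq

theorem smul_mk (g h : GG) : g • mk h = mk (g * h) := rfl

theorem mk_surj (v : VV) : ∃ g, mk g = v := QuotientGroup.mk_surjective v

def side (g0 : GG) (i : Fin 3) (hi : i ≠ 0) : VV → Prop :=
  Quotient.lift (fun g => St i (g0⁻¹ * g).left) (by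
    intro g g' h
    have h1 : g⁻¹ * g' ∈ HH := QuotientGroup.leftRel_apply.1 h
    obtain ⟨m, hm⟩ := (mem_HH _).1 h1
    have h2 : g0⁻¹ * g' = (g0⁻¹ * g) * (g⁻¹ * g') := by group
    have h3 : ((g0⁻¹ * g) * (g⁻¹ * g')).left = (g0⁻¹ * g).left * ga ^ m := by
      rw [SemidirectProduct.mul_left _ (g⁻¹ * g'), ← hm, Ph_apply, map_zpow, ph_ga]
    show St i (g0⁻¹ * g).left = St i (g0⁻¹ * g').left
    rw [h2, h3, St_mul_zpow i hi])

theorem side_mk (g0 : GG) (i : Fin 3) (hi : i ≠ 0) (g : GG) :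
    side g0 i hi (mk g) ↔ St i (g0⁻¹ * g).left := Iff.rfl

theorem side_gx (g0 : GG) (i : Fin 3) (hi : i ≠ 0) (g : GG) (j : Fin 3) :
    side g0 i hi (mk (g * gx j)) ↔ side g0 i hi (mk g) ∨ ((g0⁻¹ * g).left = 1 ∧ j = i) := by
  rw [side_mk, side_mk, ← mul_assoc, SemidirectProduct.mul_left, Ph_apply]
  show St i ((g0⁻¹ * g).left * ph _ (FreeGroup.of j)) ↔ _
  rw [ph_of, ← mul_assoc, St_mul_zpow i hi, St_mul_of]

theorem side_self (g0 : GG) (i : Fin 3) (hi : i ≠ 0) : ¬ side g0 i hi (mk g0) := by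
  rw [side_mk, inv_mul_cancel]
  exact St_one i

theorem side_next (g0 : GG) (i : Fin 3) (hi : i ≠ 0) : side g0 i hi (mk (g0 * gx i)) := by
  rw [side_gx]
  right
  rw [inv_mul_cancel]
  exact ⟨rfl, rfl⟩

theorem mk_ne (g : GG) (i : Fin 3) (hi : i ≠ 0) : mk g ≠ mk (g * gx i) := by
  intro h
  apply side_self g i hi
  rw [h]
  exact side_next g i hi

/-- the Bass-Serre tree -/
def TT : SimpleGraph VV where
  Adj u v := ∃ (g : GG) (i : Fin 3), i ≠ 0 ∧
    ((u = mk g ∧ v = mk (g * gx i)) ∨ (v = mk g ∧ u = mk (g * gx i)))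
  symm := ⟨fun u v ⟨g, i, hi, h⟩ => ⟨g, i, hi, h.symm⟩⟩
  loopless := ⟨fun u ⟨g, i, hi, h⟩ => by
    rcases h with ⟨h1, h2⟩ | ⟨h1, h2⟩
    · exact mk_ne g i hi (h1.symm.trans h2)
    · exact mk_ne g i hi (h1.symm.trans h2)⟩

theorem TT_adj (u v : VV) : TT.Adj u v ↔ ∃ (g : GG) (i : Fin 3), i ≠ 0 ∧
    ((u = mk g ∧ v = mk (g * gx i)) ∨ (v = mk g ∧ u = mk (g * gx i))) := Iff.rfl

theorem TT_smul (g : GG) (u v : VV) (h : TT.Adj u v) : TT.Adj (g • u) (g • v) := by
  obtain ⟨g', i, hi, h⟩ := h
  refine ⟨g * g', i, hi, ?_⟩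
  rcases h with ⟨h1, h2⟩ | ⟨h1, h2⟩
  · left
    rw [h1, h2, smul_mk, smul_mk, mul_assoc]
    exact ⟨rfl, rfl⟩
  · right
    rw [h1, h2, smul_mk, smul_mk, mul_assoc]
    exact ⟨rfl, rfl⟩

theorem bridge (g0 : GG) (i : Fin 3) (hi : i ≠ 0) :
    TT.IsBridge s(mk g0, mk (g0 * gx i)) := by
  rw [SimpleGraph.isBridge_iff]
  intro hr
  have key : ∀ u v : VV, (TT.deleteEdges {s(mk g0, mk (g0 * gx i))}).Reachable u v →
      (side g0 i hi u ↔ side g0 i hi v) := by
    intro u v huv
    obtain ⟨p⟩ := huv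
    induction p with
    | nil => exact Iff.rfl
    | cons hadj _ ih =>
      rw [← ih]
      rename_i u v w _
      rw [SimpleGraph.deleteEdges_adj] at hadj
      obtain ⟨⟨g, j, hj, h⟩, hne⟩ := hadj
      have hkey : (g0⁻¹ * g).left = 1 ∧ j = i → s(mk g, mk (g * gx j)) =
          s(mk g0, mk (g0 * gx i)) := by
        rintro ⟨h1, rfl⟩
        have h2 : mk g0 = mk g := by
          rw [mk_eq, mem_HH]
          exact ⟨0, by rw [h1]; simp⟩
        have h3 : mk (g0 * gx j) = mk (g * gx j) := by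
          rw [mk_eq, mem_HH]
          have h4 : g = g0 * SemidirectProduct.inr (g0⁻¹ * g).right := by
            have h5 := SemidirectProduct.inl_left_mul_inr_right (g0⁻¹ * g)
            rw [h1, map_one, one_mul] at h5
            rw [h5]; group
          refine ⟨(g0⁻¹ * g).right.toAdd * ex j, ?_⟩
          have h6 : (g0 * gx j)⁻¹ * (g * gx j) =
              (gx j)⁻¹ * (SemidirectProduct.inr (g0⁻¹ * g).right * gx j) := by
            conv_lhs => rw [h4]
            group
          rw [h6]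
          generalize (g0⁻¹ * g).right = k
          have h7 : (SemidirectProduct.inr k * gx j : GG) =
              gx j * SemidirectProduct.inl (ga ^ (k.toAdd * ex j)) * SemidirectProduct.inr k := by
            apply SemidirectProduct.ext
            · simp [gx, Ph_apply, ph_of, -map_zpow]
            · simp [gx, -map_zpow]
          rw [h7]
          simp [-map_zpow, mul_assoc]
        rw [h2, h3]
      rcases h with ⟨rfl, rfl⟩ | ⟨rfl, rfl⟩
      · rw [side_gx]
        constructor
        · exact Or.inl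
        · rintro (h | h)
          · exact h
          · exact absurd (hkey h) hne
      · rw [side_gx]
        constructor
        · rintro (h | h)
          · exact h
          · exact absurd ((Sym2.eq_swap).trans (hkey h)) hne
        · exact Or.inl
  exact side_self g0 i hi ((key _ _ hr).2 (side_next g0 i hi))

theorem acyclic : TT.IsAcyclic := by
  rw [SimpleGraph.isAcyclic_iff_forall_adj_isBridge]
  rintro u v ⟨g, i, hi, h⟩
  rcases h with ⟨rfl, rfl⟩ | ⟨rfl, rfl⟩
  · exact bridge g i hi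
  · rw [Sym2.eq_swap]
    exact bridge g i hi

theorem reach_smul (g : GG) (u v : VV) (h : TT.Reachable u v) : TT.Reachable (g • u) (g • v) := by
  let f : TT →g TT := { toFun := fun u => g • u, map_rel' := fun {u v} h => TT_smul g u v h }
  exact h.map f

theorem reach (w : Fr) : TT.Reachable (mk 1) (mk (SemidirectProduct.inl w)) := by
  induction w using FreeGroup.induction_on with
  | C1 => rw [map_one]
  | of i =>
    by_cases hi : i = 0
    · subst hi
      have : mk 1 = mk (SemidirectProduct.inl (FreeGroup.of 0)) := by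
        rw [mk_eq, mem_HH]
        exact ⟨1, by simp [ga]⟩
      rw [← this]
    · apply SimpleGraph.Adj.reachable
      exact ⟨1, i, hi, Or.inl ⟨rfl, by rw [one_mul]; rfl⟩⟩
  | inv_of i h =>
    have h1 := reach_smul (SemidirectProduct.inl (FreeGroup.of i))⁻¹ _ _ h
    rw [smul_mk, smul_mk, mul_one, inv_mul_cancel] at h1
    rw [map_inv]
    exact h1.symm
  | mul x y hx hy =>
    have h1 := reach_smul (SemidirectProduct.inl x) _ _ hy
    rw [smul_mk, smul_mk, mul_one, ← map_mul] at h1
    exact hx.trans h1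

theorem isTree : TT.IsTree := by
  have hc : ∀ u : VV, TT.Reachable (mk 1) u := by
    intro u
    obtain ⟨g, rfl⟩ := mk_surj u
    have : mk g = mk (SemidirectProduct.inl g.left) := by
      rw [mk_eq, mem_HH]
      refine ⟨0, ?_⟩
      rw [SemidirectProduct.mul_left, SemidirectProduct.inv_left, SemidirectProduct.inv_right,
        SemidirectProduct.left_inl, ← map_mul, inv_mul_cancel, map_one, zpow_zero]
    rw [this]
    exact reach _
  exact
    { connected :=
        { preconnected := fun u v => (hc u).symm.trans (hc v)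
          nonempty := ⟨mk 1⟩ }
      isAcyclic := acyclic }

end Pool.Agent.N492.VR
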